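import Pool.Agent.H315.OrderSix
import Pool.Agent.H430R2.PermCubes.Lower
import Pool.Agent.H430R2.PermCubes.Two
import Pool.Agent.TH302.Tarry.Upper
import Pool.Agent.TH7.Cyc.Main

set_option autoImplicit false

/-!
# MP_c7a479_co: variational cubes exist except for order two and for dimension two, order six

The new case is dimension three and order six.
-/

namespace Pool.Agent.Results.MP_c7a479_co.VariationalCubeExistence

open Function Pool.Agent.H430R2.PermCubes

/-- a variational set restricts to fewer cubes -/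
theorem mono {m n k l : ℕ} (hl : l ≤ k)
    (h : ∃ C : Fin k → (Fin m → Fin n) → Fin n, IsVariationalSet m n k C) :
    ∃ C : Fin l → (Fin m → Fin n) → Fin n, IsVariationalSet m n l C := by
  obtain ⟨C, hC1, hC2⟩ := h
  exact ⟨fun i => C (Fin.castLE hl i), fun i => hC1 _, fun e he =>
    hC2 (fun i => Fin.castLE hl (e i)) ((Fin.castLE_injective hl).comp he)⟩

theorem not_two_six : ¬ ∃ C : Fin 2 → (Fin 2 → Fin 6) → Fin 6, IsVariationalSet 2 6 2 C := by
  rintro ⟨C, hC1, hC2⟩
  have hupd0 : ∀ a b t : Fin 6, update ![a, b] 0 t = ![t, b] := by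
    intro a b t
    funext i
    fin_cases i <;> simp
  have hupd1 : ∀ a b t : Fin 6, update ![a, b] 1 t = ![a, t] := by
    intro a b t
    funext i
    fin_cases i <;> simp
  have hrow : ∀ (k : Fin 2) (a : Fin 6), Injective (fun t : Fin 6 => C k ![a, t]) := by
    intro k a
    have := (hC1 k 1 ![a, 0]).1
    simpa only [hupd1] using this
  have hcol : ∀ (k : Fin 2) (b : Fin 6), Injective (fun t : Fin 6 => C k ![t, b]) := by
    intro k b
    have := (hC1 k 0 ![0, b]).1
    simpa only [hupd0] using this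
  refine Pool.Agent.TH302.Tarry.tarry (fun a b => C 0 ![a, b]) (fun a b => C 1 ![a, b])
    (hrow 0) (hcol 0) (hrow 1) (hcol 1) ?_
  intro i c i' c' h0 h1
  have hinj := (hC2 id injective_id).1
  have : (![i, c] : Fin 2 → Fin 6) = ![i', c'] := by
    apply hinj
    funext k
    fin_cases k
    · exact h0
    · exact h1
  exact ⟨congrFun this 0, congrFun this 1⟩

/-- two orthogonal latin squares as a variational set of two squares -/
theorem exists_two {n : ℕ} (h0 : n ≠ 0) (h2 : n ≠ 2) (h6 : n ≠ 6) :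
    ∃ C : Fin 2 → (Fin 2 → Fin n) → Fin n, IsVariationalSet 2 n 2 C := by
  obtain ⟨A, B, hA1, hA2, hB1, hB2, hO⟩ := Pool.Agent.H430R2.Mols.euler_ops h0 h2 h6
  refine ⟨![fun x => A (x 0) (x 1), fun x => B (x 0) (x 1)], ?_, ?_⟩
  · intro k i x
    fin_cases k <;> fin_cases i
    · simpa [update] using hA2 (x 1)
    · simpa [update] using hA1 (x 0)
    · simpa [update] using hB2 (x 1)
    · simpa [update] using hB1 (x 0)
  · intro e he
    rw [← Finite.injective_iff_bijective]
    intro x y hxy
    have hs := Finite.injective_iff_surjective.1 he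
    obtain ⟨j0, hj0⟩ := hs 0
    obtain ⟨j1, hj1⟩ := hs 1
    have e0 := congrFun hxy j0
    have e1 := congrFun hxy j1
    simp only [hj0, hj1] at e0 e1
    have := @hO (x 0, x 1) (y 0, y 1) (by
      simp only [Prod.mk.injEq]
      exact ⟨by simpa using e0, by simpa using e1⟩)
    simp only [Prod.mk.injEq] at this
    funext i
    fin_cases i
    · exact this.1
    · exact this.2

theorem exists_all {m n : ℕ} (hm : 2 ≤ m) (hn : 2 ≤ n) (h2 : n ≠ 2) (h6 : ¬ (m = 2 ∧ n = 6)) :
    ∃ C : Fin m → (Fin m → Fin n) → Fin n, IsVariationalSet m n m C := by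
  by_cases hn6 : n = 6
  · subst hn6
    have hm3 : 3 ≤ m := by
      rcases Nat.lt_or_ge 2 m with h | h
      · exact h
      · exact absurd ⟨by omega, rfl⟩ h6
    rcases Nat.lt_or_ge 3 m with h | h
    · rcases Nat.even_or_odd m with he | ho
      · obtain ⟨C, hC⟩ := Pool.Agent.TH7.Cyc.exists_cyc_even (m := m) (by omega) he
        exact ⟨C, hC.1⟩
      · obtain ⟨C, hC⟩ := Pool.Agent.TH7.Cyc.exists_cyc_odd (m := m) (by
          obtain ⟨r, hr⟩ := ho
          omega) ho
        exact mono (Nat.le_succ m) ⟨C, hC.1⟩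
    · have : m = 3 := by omega
      subst this
      exact ⟨_, Pool.Agent.H315.OrderSix.isVariationalSet_cube⟩
  · rcases Nat.lt_or_ge 2 m with h | h
    · exact mono (Nat.le_succ m) (exists_succ h (by omega) h2 hn6)
    · have : m = 2 := by omega
      subst this
      exact exists_two (by omega) h2 hn6

theorem result :
    -- three permutation cubes of dimension three and order six that form a variational cube
    (∃ C : Fin 3 → (Fin 3 → Fin 6) → Fin 6, IsVariationalSet 3 6 3 C) ∧
    -- hence the maximum for dimension three and order six is three or four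
    (∀ p : ℕ, IsPi 3 6 p → p = 3 ∨ p = 4) ∧
    -- a variational cube of `m` cubes exists exactly when `n ≠ 2` and `(m, n) ≠ (2, 6)`
    (∀ m n : ℕ, 2 ≤ m → 2 ≤ n →
      ((∃ C : Fin m → (Fin m → Fin n) → Fin n, IsVariationalSet m n m C) ↔
        n ≠ 2 ∧ ¬ (m = 2 ∧ n = 6))) ∧
    -- in terms of the maximum
    (∀ m n p : ℕ, 2 ≤ m → 2 ≤ n → IsPi m n p → (m ≤ p ↔ n ≠ 2 ∧ ¬ (m = 2 ∧ n = 6))) := by
  have key : ∀ m n : ℕ, 2 ≤ m → 2 ≤ n →
      ((∃ C : Fin m → (Fin m → Fin n) → Fin n, IsVariationalSet m n m C) ↔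
        n ≠ 2 ∧ ¬ (m = 2 ∧ n = 6)) := by
    intro m n hm hn
    constructor
    · rintro ⟨C, hC⟩
      refine ⟨?_, ?_⟩
      · rintro rfl
        have := two_le hC hm
        omega
      · rintro ⟨rfl, rfl⟩
        exact not_two_six ⟨C, hC⟩
    · rintro ⟨h2, h6⟩
      exact exists_all hm hn h2 h6
  refine ⟨⟨_, Pool.Agent.H315.OrderSix.isVariationalSet_cube⟩, ?_, key, ?_⟩
  · intro p hp
    have h3 : 3 ≤ p := hp.2 ⟨_, Pool.Agent.H315.OrderSix.isVariationalSet_cube⟩
    obtain ⟨C, hC⟩ := hp.1
    have h4 : p ≤ 3 + 1 := Pool.Agent.TH302.Tarry.le_of_array hC.2 (by norm_num)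
    omega
  · intro m n p hm hn hp
    rw [← key m n hm hn]
    constructor
    · intro h
      exact mono h hp.1
    · intro h
      exact hp.2 h

end Pool.Agent.Results.MP_c7a479_co.VariationalCubeExistence
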